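import Mathlib

set_option autoImplicit false

namespace Pool.Agent.Results.MP_3db952_lc.NoUniversal

/-- The first axis `{(x, 0)}` of the plane. -/
def axX : Set (ℝ × ℝ) := {p | p.2 = 0}

/-- The second axis `{(0, y)}` of the plane. -/
def axY : Set (ℝ × ℝ) := {p | p.1 = 0}

/-- `π₁(S) = {(x, 0) : ∃ y, (x, y) ∈ S}`. -/
def proj1 (S : Set (ℝ × ℝ)) : Set (ℝ × ℝ) := {p | p.2 = 0 ∧ ∃ y, (p.1, y) ∈ S}

/-- `π₂(S) = {(0, y) : ∃ x, (x, y) ∈ S}`. -/
def proj2 (S : Set (ℝ × ℝ)) : Set (ℝ × ℝ) := {p | p.1 = 0 ∧ ∃ x, (x, p.2) ∈ S}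

/-- The direct product `A ⊗ B = {(x, y) : (x, 0) ∈ A, (0, y) ∈ B}`. -/
def box (A B : Set (ℝ × ℝ)) : Set (ℝ × ℝ) := {p | (p.1, 0) ∈ A ∧ (0, p.2) ∈ B}

/-- A projective algebra: a nonempty family of plane sets closed under finite unions, finite
intersections, complement, the two projections, and direct products of sets in the axes. -/
structure IsProjectiveAlgebra (F : Set (Set (ℝ × ℝ))) : Prop where
  nonempty : F.Nonempty
  union : ∀ S ∈ F, ∀ T ∈ F, S ∪ T ∈ F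
  inter : ∀ S ∈ F, ∀ T ∈ F, S ∩ T ∈ F
  compl : ∀ S ∈ F, Sᶜ ∈ F
  proj1 : ∀ S ∈ F, proj1 S ∈ F
  proj2 : ∀ S ∈ F, proj2 S ∈ F
  box : ∀ A ∈ F, ∀ B ∈ F, A ⊆ axX → B ⊆ axY → box A B ∈ F

/-- `φ` embeds the projective algebra `F` in the projective algebra `G`: it maps `F` injectively
into `G` and preserves all operations. -/
structure IsEmbedding (F G : Set (Set (ℝ × ℝ))) (φ : Set (ℝ × ℝ) → Set (ℝ × ℝ)) : Prop where
  maps : ∀ S ∈ F, φ S ∈ G
  inj : ∀ S ∈ F, ∀ T ∈ F, φ S = φ T → S = T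
  union : ∀ S ∈ F, ∀ T ∈ F, φ (S ∪ T) = φ S ∪ φ T
  inter : ∀ S ∈ F, ∀ T ∈ F, φ (S ∩ T) = φ S ∩ φ T
  compl : ∀ S ∈ F, φ (Sᶜ) = (φ S)ᶜ
  proj1 : ∀ S ∈ F, φ (NoUniversal.proj1 S) = NoUniversal.proj1 (φ S)
  proj2 : ∀ S ∈ F, φ (NoUniversal.proj2 S) = NoUniversal.proj2 (φ S)
  box : ∀ A ∈ F, ∀ B ∈ F, A ⊆ axX → B ⊆ axY → φ (box A B) = NoUniversal.box (φ A) (φ B)

/-- Terms naming the members of a generated family. -/
inductive Term
  | base (i : ℕ)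
  | union (s t : Term)
  | inter (s t : Term)
  | compl (s : Term)
  | proj1 (s : Term)
  | proj2 (s : Term)
  | box (s t : Term)
  deriving Encodable

/-- The plane set named by a term. -/
def ev (g : ℕ → Set (ℝ × ℝ)) : Term → Set (ℝ × ℝ)
  | .base i => g i
  | .union s t => ev g s ∪ ev g t
  | .inter s t => ev g s ∩ ev g t
  | .compl s => (ev g s)ᶜ
  | .proj1 s => proj1 (ev g s)
  | .proj2 s => proj2 (ev g s)
  | .box s t => box (ev g s) (ev g t)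

theorem range_ev_alg (g : ℕ → Set (ℝ × ℝ)) : IsProjectiveAlgebra (Set.range (ev g)) where
  nonempty := ⟨_, .base 0, rfl⟩
  union := by rintro _ ⟨s, rfl⟩ _ ⟨t, rfl⟩; exact ⟨.union s t, rfl⟩
  inter := by rintro _ ⟨s, rfl⟩ _ ⟨t, rfl⟩; exact ⟨.inter s t, rfl⟩
  compl := by rintro _ ⟨s, rfl⟩; exact ⟨.compl s, rfl⟩
  proj1 := by rintro _ ⟨s, rfl⟩; exact ⟨.proj1 s, rfl⟩
  proj2 := by rintro _ ⟨s, rfl⟩; exact ⟨.proj2 s, rfl⟩
  box := by rintro _ ⟨s, rfl⟩ _ ⟨t, rfl⟩ _ _; exact ⟨.box s t, rfl⟩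

theorem range_ev_countable (g : ℕ → Set (ℝ × ℝ)) : (Set.range (ev g)).Countable :=
  Set.countable_range _

/-- The diagonal over the natural numbers. -/
def D0 : Set (ℝ × ℝ) := {p | ∃ i : ℕ, p = ((i : ℝ), (i : ℝ))}
/-- The shift. -/
def D1 : Set (ℝ × ℝ) := {p | ∃ i : ℕ, p = (((i + 1 : ℕ) : ℝ), (i : ℝ))}
/-- The origin. -/
def D2 : Set (ℝ × ℝ) := {((0 : ℝ), (0 : ℝ))}
/-- The part of the diagonal coding `T`. -/
def D3 (T : Set ℕ) : Set (ℝ × ℝ) := {p | ∃ i ∈ T, p = ((i : ℝ), (i : ℝ))}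

/-- The generators. -/
def gens (T : Set ℕ) : ℕ → Set (ℝ × ℝ)
  | 0 => D0
  | 1 => D1
  | 2 => D2
  | _ => D3 T

/-- The algebra coding `T`. -/
def alg (T : Set ℕ) : Set (Set (ℝ × ℝ)) := Set.range (ev (gens T))

/-- Singletons on the first axis. -/
def PX (n : ℕ) : Set (ℝ × ℝ) := {((n : ℝ), (0 : ℝ))}
/-- Singletons on the second axis. -/
def PY (n : ℕ) : Set (ℝ × ℝ) := {((0 : ℝ), (n : ℝ))}

theorem PX_sub (n : ℕ) : PX n ⊆ axX := by
  rintro p rfl; rfl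

theorem PY_sub (n : ℕ) : PY n ⊆ axY := by
  rintro p rfl; rfl

theorem PX_zero : PX 0 = proj1 D2 := by
  ext ⟨x, y⟩
  simp only [PX, proj1, D2, Set.mem_singleton_iff, Set.mem_ofPred_eq, Prod.mk.injEq,
    Nat.cast_zero]
  constructor
  · rintro ⟨rfl, rfl⟩; exact ⟨rfl, 0, rfl, rfl⟩
  · rintro ⟨rfl, _, rfl, _⟩; exact ⟨rfl, rfl⟩

theorem axX_eq : axX = proj1 (D0 ∪ D0ᶜ) := by
  ext ⟨x, y⟩
  simp only [axX, proj1, Set.union_compl_self, Set.mem_univ, Set.mem_ofPred_eq, exists_const,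
    and_true]

theorem axY_eq : axY = proj2 (D0 ∪ D0ᶜ) := by
  ext ⟨x, y⟩
  simp only [axY, proj2, Set.union_compl_self, Set.mem_univ, Set.mem_ofPred_eq, exists_const,
    and_true]

theorem PY_eq (n : ℕ) : PY n = proj2 (D0 ∩ box (PX n) axY) := by
  ext ⟨x, y⟩
  simp only [PY, PX, proj2, D0, box, axY, Set.mem_singleton_iff, Set.mem_ofPred_eq,
    Prod.mk.injEq, Set.mem_inter_iff, and_true]
  constructor
  · rintro ⟨rfl, rfl⟩; exact ⟨rfl, n, ⟨n, rfl, rfl⟩, rfl⟩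
  · rintro ⟨rfl, z, ⟨i, rfl, rfl⟩, h⟩; exact ⟨rfl, h⟩

theorem PX_succ (n : ℕ) : PX (n + 1) = proj1 (D1 ∩ box axX (PY n)) := by
  ext ⟨x, y⟩
  simp only [PY, PX, proj1, D1, box, axX, Set.mem_singleton_iff, Set.mem_ofPred_eq,
    Prod.mk.injEq, Set.mem_inter_iff, true_and]
  constructor
  · rintro ⟨rfl, rfl⟩; exact ⟨rfl, n, ⟨n, rfl, rfl⟩, rfl⟩
  · rintro ⟨rfl, z, ⟨i, rfl, rfl⟩, h⟩
    have : i = n := by exact_mod_cast h
    subst this
    exact ⟨rfl, rfl⟩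

theorem code_mem (T : Set ℕ) (n : ℕ) :
    (D3 T ∩ box (PX n) (PY n)).Nonempty ↔ n ∈ T := by
  constructor
  · rintro ⟨⟨x, y⟩, ⟨i, hi, h1⟩, h2, h3⟩
    simp only [Prod.mk.injEq] at h1
    simp only [PX, Set.mem_singleton_iff, Prod.mk.injEq, and_true] at h2
    have : i = n := by
      have : (i : ℝ) = n := by rw [← h1.1, h2]
      exact_mod_cast this
    exact this ▸ hi
  · intro hn
    exact ⟨((n : ℝ), (n : ℝ)), ⟨n, hn, rfl⟩, rfl, rfl⟩

theorem D0_mem (T : Set ℕ) : D0 ∈ alg T := ⟨.base 0, rfl⟩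
theorem D1_mem (T : Set ℕ) : D1 ∈ alg T := ⟨.base 1, rfl⟩
theorem D2_mem (T : Set ℕ) : D2 ∈ alg T := ⟨.base 2, rfl⟩
theorem D3_mem (T : Set ℕ) : D3 T ∈ alg T := ⟨.base 3, rfl⟩

theorem alg_alg (T : Set ℕ) : IsProjectiveAlgebra (alg T) := range_ev_alg _

theorem axX_mem (T : Set ℕ) : axX ∈ alg T := by
  rw [axX_eq]
  exact (alg_alg T).proj1 _ ((alg_alg T).union _ (D0_mem T) _ ((alg_alg T).compl _ (D0_mem T)))

theorem axY_mem (T : Set ℕ) : axY ∈ alg T := by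
  rw [axY_eq]
  exact (alg_alg T).proj2 _ ((alg_alg T).union _ (D0_mem T) _ ((alg_alg T).compl _ (D0_mem T)))

theorem PXY_mem (T : Set ℕ) (n : ℕ) : PX n ∈ alg T ∧ PY n ∈ alg T := by
  have hY : ∀ n, PX n ∈ alg T → PY n ∈ alg T := by
    intro n hn
    rw [PY_eq]
    exact (alg_alg T).proj2 _ ((alg_alg T).inter _ (D0_mem T) _
      ((alg_alg T).box _ hn _ (axY_mem T) (PX_sub n) (le_refl _)))
  induction n with
  | zero =>
    have h : PX 0 ∈ alg T := by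
      rw [PX_zero]; exact (alg_alg T).proj1 _ (D2_mem T)
    exact ⟨h, hY 0 h⟩
  | succ n ih =>
    have h : PX (n + 1) ∈ alg T := by
      rw [PX_succ]
      exact (alg_alg T).proj1 _ ((alg_alg T).inter _ (D1_mem T) _
        ((alg_alg T).box _ (axX_mem T) _ ih.2 (le_refl _) (PY_sub n)))
    exact ⟨h, hY _ h⟩

/-- There is no countable projective algebra of plane sets in which every countable projective
algebra of plane sets embeds. -/
theorem result : ¬ ∃ U : Set (Set (ℝ × ℝ)), IsProjectiveAlgebra U ∧ U.Countable ∧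
    ∀ F : Set (Set (ℝ × ℝ)), IsProjectiveAlgebra F → F.Countable →
      ∃ φ : Set (ℝ × ℝ) → Set (ℝ × ℝ), IsEmbedding F U φ := by
  rintro ⟨U, -, hUc, hU⟩
  choose φ hφ using fun T : Set ℕ => hU (alg T) (alg_alg T) (range_ev_countable _)
  have hcU : Countable U := hUc.to_subtype
  -- the images of the generators
  let c : Set ℕ → U × U × U × U := fun T =>
    (⟨φ T D0, (hφ T).maps _ (D0_mem T)⟩, ⟨φ T D1, (hφ T).maps _ (D1_mem T)⟩,
      ⟨φ T D2, (hφ T).maps _ (D2_mem T)⟩, ⟨φ T (D3 T), (hφ T).maps _ (D3_mem T)⟩)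
  have hninj : ¬ Function.Injective c := by
    intro hinj
    have : Countable (Set ℕ) := hinj.countable
    obtain ⟨f, hf⟩ := exists_injective_nat (Set ℕ)
    exact Function.cantor_injective f hf
  simp only [Function.Injective, not_forall] at hninj
  obtain ⟨T, T', hc, hne⟩ := hninj
  simp only [c, Prod.mk.injEq, Subtype.mk.injEq] at hc
  obtain ⟨h0, h1, h2, h3⟩ := hc
  have hAX : ∀ S : Set ℕ, φ S axX = proj1 (φ S D0 ∪ (φ S D0)ᶜ) := by
    intro S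
    rw [axX_eq, (hφ S).proj1 _ ((alg_alg S).union _ (D0_mem S) _ ((alg_alg S).compl _ (D0_mem S))),
      (hφ S).union _ (D0_mem S) _ ((alg_alg S).compl _ (D0_mem S)), (hφ S).compl _ (D0_mem S)]
  have hAY : ∀ S : Set ℕ, φ S axY = proj2 (φ S D0 ∪ (φ S D0)ᶜ) := by
    intro S
    rw [axY_eq, (hφ S).proj2 _ ((alg_alg S).union _ (D0_mem S) _ ((alg_alg S).compl _ (D0_mem S))),
      (hφ S).union _ (D0_mem S) _ ((alg_alg S).compl _ (D0_mem S)), (hφ S).compl _ (D0_mem S)]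
  have hPY : ∀ (S : Set ℕ) (n : ℕ), φ S (PY n) = proj2 (φ S D0 ∩ box (φ S (PX n)) (φ S axY)) := by
    intro S n
    have hb := (alg_alg S).box _ (PXY_mem S n).1 _ (axY_mem S) (PX_sub n) (le_refl _)
    rw [PY_eq, (hφ S).proj2 _ ((alg_alg S).inter _ (D0_mem S) _ hb),
      (hφ S).inter _ (D0_mem S) _ hb,
      (hφ S).box _ (PXY_mem S n).1 _ (axY_mem S) (PX_sub n) (le_refl _)]
  have hPX : ∀ (S : Set ℕ) (n : ℕ),
      φ S (PX (n + 1)) = proj1 (φ S D1 ∩ box (φ S axX) (φ S (PY n))) := by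
    intro S n
    have hb := (alg_alg S).box _ (axX_mem S) _ (PXY_mem S n).2 (le_refl _) (PY_sub n)
    rw [PX_succ, (hφ S).proj1 _ ((alg_alg S).inter _ (D1_mem S) _ hb),
      (hφ S).inter _ (D1_mem S) _ hb,
      (hφ S).box _ (axX_mem S) _ (PXY_mem S n).2 (le_refl _) (PY_sub n)]
  have heq : ∀ n, φ T (PX n) = φ T' (PX n) ∧ φ T (PY n) = φ T' (PY n) := by
    have hstep : ∀ n, φ T (PX n) = φ T' (PX n) → φ T (PY n) = φ T' (PY n) := by
      intro n hn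
      rw [hPY, hPY, hAY, hAY, h0, hn]
    intro n
    induction n with
    | zero =>
      have h : φ T (PX 0) = φ T' (PX 0) := by
        rw [PX_zero, (hφ T).proj1 _ (D2_mem T), (hφ T').proj1 _ (D2_mem T'), h2]
      exact ⟨h, hstep 0 h⟩
    | succ n ih =>
      have h : φ T (PX (n + 1)) = φ T' (PX (n + 1)) := by
        rw [hPX, hPX, hAX, hAX, h0, h1, ih.2]
      exact ⟨h, hstep _ h⟩
  have hemp : φ T ∅ = φ T' ∅ := by
    have : ∀ S : Set ℕ, φ S ∅ = φ S D0 ∩ (φ S D0)ᶜ := by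
      intro S
      rw [← (hφ S).compl _ (D0_mem S),
        ← (hφ S).inter _ (D0_mem S) _ ((alg_alg S).compl _ (D0_mem S)), Set.inter_compl_self]
    rw [this, this, h0]
  have hcode : ∀ n, φ T (D3 T ∩ box (PX n) (PY n)) = φ T' (D3 T' ∩ box (PX n) (PY n)) := by
    intro n
    have hb := fun S => (alg_alg S).box _ (PXY_mem S n).1 _ (PXY_mem S n).2 (PX_sub n) (PY_sub n)
    rw [(hφ T).inter _ (D3_mem T) _ (hb T), (hφ T').inter _ (D3_mem T') _ (hb T'),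
      (hφ T).box _ (PXY_mem T n).1 _ (PXY_mem T n).2 (PX_sub n) (PY_sub n),
      (hφ T').box _ (PXY_mem T' n).1 _ (PXY_mem T' n).2 (PX_sub n) (PY_sub n), h3,
      (heq n).1, (heq n).2]
  have hemem : ∀ S : Set ℕ, (∅ : Set (ℝ × ℝ)) ∈ alg S := by
    intro S
    rw [← Set.inter_compl_self D0]
    exact (alg_alg S).inter _ (D0_mem S) _ ((alg_alg S).compl _ (D0_mem S))
  have hcm : ∀ (S : Set ℕ) (n : ℕ), D3 S ∩ box (PX n) (PY n) ∈ alg S := fun S n =>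
    (alg_alg S).inter _ (D3_mem S) _
      ((alg_alg S).box _ (PXY_mem S n).1 _ (PXY_mem S n).2 (PX_sub n) (PY_sub n))
  apply hne
  ext n
  rw [← code_mem T n, ← code_mem T' n, Set.nonempty_iff_ne_empty, Set.nonempty_iff_ne_empty]
  rw [not_iff_not]
  constructor
  · intro h
    apply (hφ T').inj _ (hcm T' n) _ (hemem T')
    rw [← hcode, h, hemp]
  · intro h
    apply (hφ T).inj _ (hcm T n) _ (hemem T)
    rw [hcode, h, hemp]

end Pool.Agent.Results.MP_3db952_lc.NoUniversal
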